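import Mathlib
import Pool.Agent.Q72.Psh.Approx

/-!
# Maximum principle for continuous functions with the local sub-mean value property
-/

set_option autoImplicit false

open Metric Set Filter Topology Q72.Psh

namespace Q72.Core

/-- local sub-mean value property of `g` at `z` -/
def SubAt (g : ℂ → ℝ) (z : ℂ) : Prop :=
  ∀ᶠ r : ℝ in 𝓝[>] 0, g z ≤ Real.circleAverage (fun ζ : ℂ => g (z + r * ζ)) 0 1

lemma eventually_disc {K : Set ℂ} {z : ℂ} (hK : K ∈ 𝓝 z) :
    ∀ᶠ r : ℝ in 𝓝[>] 0, 0 < r ∧ ∀ ζ : ℂ, ‖ζ‖ ≤ 1 → z + r * ζ ∈ K := by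
  obtain ⟨ε, hε, hεs⟩ := Metric.mem_nhds_iff.1 hK
  have h1 : Ioo (0 : ℝ) ε ∈ 𝓝[>] (0 : ℝ) := Ioo_mem_nhdsGT hε
  filter_upwards [h1] with r hr
  refine ⟨hr.1, fun ζ hζ => hεs ?_⟩
  rw [mem_ball, dist_eq_norm, add_sub_cancel_left, norm_mul, Complex.norm_real,
    Real.norm_of_nonneg hr.1.le]
  have : r * ‖ζ‖ ≤ r := mul_le_of_le_one_right hr.1.le hζ
  linarith [hr.2]

lemma avg_sq (c : ℂ) (r : ℝ) :
    Real.circleAverage (fun ζ : ℂ => ‖c + r * ζ‖ ^ 2) 0 1 = ‖c‖ ^ 2 + r ^ 2 := by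
  have h1 := avg_re (p := fun ζ => ((‖c‖ ^ 2 + r ^ 2 : ℝ) : ℂ) + 2 * (starRingEnd ℂ c * (r * ζ)))
    (by fun_prop)
  simp only [mul_zero, add_zero, Complex.ofReal_re] at h1
  rw [← h1]
  apply Real.circleAverage_congr_sphere
  intro ζ hζ
  have hζ1 : ‖ζ‖ = 1 := by simpa using hζ
  have hζ2 : ζ.re * ζ.re + ζ.im * ζ.im = 1 := by
    rw [← Complex.normSq_apply, ← Complex.sq_norm, hζ1]; norm_num
  simp only [Complex.sq_norm, Complex.normSq_apply, Complex.add_re, Complex.add_im,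
    Complex.mul_re, Complex.mul_im, Complex.ofReal_re, Complex.ofReal_im, Complex.conj_re,
    Complex.conj_im, Complex.re_ofNat, Complex.im_ofNat]
  nlinarith [hζ2]

/-- **maximum principle** -/
theorem maxPrinciple {K U : Set ℂ} (hK : IsCompact K) (hU : IsOpen U) (hUK : U ⊆ K) {g : ℂ → ℝ}
    (hg : ContinuousOn g K) (hs : ∀ z ∈ U, SubAt g z) (hb : ∀ z ∈ K, z ∉ U → g z ≤ 0)
    {z : ℂ} (hz : z ∈ K) : g z ≤ 0 := by
  obtain ⟨R, hR⟩ := hK.isBounded.exists_norm_le
  have hR0 : 0 ≤ R := (norm_nonneg z).trans (hR z hz)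
  have key : ∀ δ : ℝ, 0 < δ → g z ≤ δ * R ^ 2 := by
    intro δ hδ
    have hGc : ContinuousOn (fun w => g w + δ * ‖w‖ ^ 2) K := hg.add (by fun_prop)
    obtain ⟨w, hw, hmax⟩ := hK.exists_isMaxOn ⟨z, hz⟩ hGc
    have h1 : g z + δ * ‖z‖ ^ 2 ≤ g w + δ * ‖w‖ ^ 2 := hmax hz
    have h2 : 0 ≤ δ * ‖z‖ ^ 2 := by positivity
    by_cases hwU : w ∈ U
    · exfalso
      have hev := (hs w hwU).and (eventually_disc (hU.mem_nhds hwU))
      obtain ⟨r, hr1, hr2, hr3⟩ := hev.exists
      have hgc : ContinuousOn (fun ζ : ℂ => g (w + r * ζ)) (sphere 0 1) := by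
        apply hg.comp (by fun_prop)
        intro ζ hζ
        exact hUK (hr3 ζ (by simpa using (mem_sphere_zero_iff_norm.1 hζ).le))
      have h3 : Real.circleAverage (fun ζ : ℂ => g (w + r * ζ) + δ * ‖w + r * ζ‖ ^ 2) 0 1 =
          Real.circleAverage (fun ζ : ℂ => g (w + r * ζ)) 0 1 + δ * (‖w‖ ^ 2 + r ^ 2) := by
        rw [Real.circleAverage_fun_add (hgc.circleIntegrable zero_le_one)
          (by apply ContinuousOn.circleIntegrable zero_le_one; fun_prop)]
        congr 1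
        rw [← avg_sq w r]
        exact Real.circleAverage_smul (a := δ) (f := fun ζ : ℂ => ‖w + r * ζ‖ ^ 2) (c := 0) (R := 1)
      have h4 : Real.circleAverage (fun ζ : ℂ => g (w + r * ζ) + δ * ‖w + r * ζ‖ ^ 2) 0 1 ≤
          g w + δ * ‖w‖ ^ 2 := by
        apply Real.circleAverage_mono_on_of_le_circle
        · apply ContinuousOn.circleIntegrable zero_le_one
          exact hgc.add (by fun_prop)
        · intro ζ hζ
          rw [abs_one, mem_sphere_zero_iff_norm] at hζ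
          exact hmax (hUK (hr3 ζ hζ.le))
      have h5 : 0 < δ * r ^ 2 := by positivity
      rw [h3] at h4
      nlinarith
    · have h3 := hb w hw hwU
      have h4 : ‖w‖ ^ 2 ≤ R ^ 2 := by
        have := hR w hw
        have := norm_nonneg w
        nlinarith
      nlinarith
  by_contra hcon
  push Not at hcon
  have h1 := key (g z / (2 * (R ^ 2 + 1))) (by positivity)
  rw [div_mul_eq_mul_div, le_div_iff₀ (by positivity)] at h1
  nlinarith [sq_nonneg R]

lemma SubAt.sub_re {g : ℂ → ℝ} {z : ℂ} {U : Set ℂ} (hU : U ∈ 𝓝 z) (hg : ContinuousOn g U)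
    (h : SubAt g z) {p : ℂ → ℂ} (hp : Differentiable ℂ p) :
    SubAt (fun w => g w - (p w).re) z := by
  have hpc := hp.continuous
  filter_upwards [h, eventually_disc hU] with r h1 h2
  have hgc : ContinuousOn (fun ζ : ℂ => g (z + r * ζ)) (sphere 0 1) := by
    apply hg.comp (by fun_prop)
    intro ζ hζ
    exact h2.2 ζ (by simpa using (mem_sphere_zero_iff_norm.1 hζ).le)
  rw [Real.circleAverage_fun_sub (hgc.circleIntegrable zero_le_one)
    (by apply ContinuousOn.circleIntegrable zero_le_one; fun_prop)]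
  have h3 := avg_re (p := fun ζ => p (z + r * ζ)) (by fun_prop)
  simp only [mul_zero, add_zero] at h3
  rw [h3]
  linarith

/-- local sub-mean value property implies the sub-mean value property -/
theorem global_of_local {k : ℂ → ℝ} (hk : ContinuousOn k (closedBall 0 1))
    (hs : ∀ z : ℂ, ‖z‖ < 1 → SubAt k z) : k 0 ≤ Real.circleAverage k 0 1 := by
  apply le_of_forall_pos_le_add
  intro δ hδ
  obtain ⟨p, hp, hph⟩ := approx (hk.mono sphere_subset_closedBall) (half_pos hδ)
  have hpc := hp.continuous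
  have h1 : k 0 - (p 0 + ((δ / 2 : ℝ) : ℂ)).re ≤ 0 := by
    apply maxPrinciple (g := fun w => k w - (p w + ((δ / 2 : ℝ) : ℂ)).re)
      (U := ball (0 : ℂ) 1) (isCompact_closedBall (0 : ℂ) 1) isOpen_ball ball_subset_closedBall
    · exact hk.sub (by fun_prop)
    · intro z hz
      have hz1 : ‖z‖ < 1 := by simpa using hz
      exact (hs z hz1).sub_re (U := closedBall 0 1) (mem_of_superset (isOpen_ball.mem_nhds hz)
        ball_subset_closedBall) hk (p := fun w => p w + ((δ / 2 : ℝ) : ℂ)) (by fun_prop)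
    · intro z hz hz2
      have hzn : ‖z‖ = 1 := by
        have h1 : ‖z‖ ≤ 1 := by simpa using hz
        have h2 : ¬ ‖z‖ < 1 := by simpa using hz2
        exact le_antisymm h1 (not_lt.1 h2)
      have h3 := abs_lt.1 (hph z (by simpa using hzn))
      simp only [Complex.add_re, Complex.ofReal_re]
      linarith [h3.2]
    · simp
  have h2 : (p 0).re ≤ Real.circleAverage k 0 1 + δ / 2 := by
    rw [← avg_re hp]
    apply avg_le_add (by fun_prop) (hk.mono sphere_subset_closedBall)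
    intro ζ hζ
    have := abs_lt.1 (hph ζ hζ)
    linarith [this.1]
  simp only [Complex.add_re, Complex.ofReal_re] at h1
  linarith

end Q72.Core
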