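import Mathlib
import Pool.Agent.Q72.Core.MP
import Pool.Agent.Q72.WE.Annulus

/-!
# Annulus principle and Liouville's theorem
-/

set_option autoImplicit false

open Metric Set Filter Topology Q72.Psh

namespace Q72.Core

/-- **annulus principle** -/
theorem annulus {r R : ℝ} (hr : 0 < r) {g : ℂ → ℝ}
    (hg : ContinuousOn g {z : ℂ | r ≤ ‖z‖ ∧ ‖z‖ ≤ R})
    (hs : ∀ z : ℂ, r < ‖z‖ → ‖z‖ < R → SubAt g z) {a b : ℝ}
    (h1 : ∀ z : ℂ, ‖z‖ = r → g z ≤ a + b * Real.log r)
    (h2 : ∀ z : ℂ, ‖z‖ = R → g z ≤ a + b * Real.log R) {z : ℂ}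
    (hz1 : r ≤ ‖z‖) (hz2 : ‖z‖ ≤ R) : g z ≤ a + b * Real.log ‖z‖ := by
  have hKc : IsCompact {z : ℂ | r ≤ ‖z‖ ∧ ‖z‖ ≤ R} := by
    have : {z : ℂ | r ≤ ‖z‖ ∧ ‖z‖ ≤ R} = closedBall 0 R ∩ {z : ℂ | r ≤ ‖z‖} := by
      ext z
      simp [and_comm]
    rw [this]
    exact (isCompact_closedBall _ _).inter_right (isClosed_le continuous_const continuous_norm)
  have hUo : IsOpen {z : ℂ | r < ‖z‖ ∧ ‖z‖ < R} :=
    (isOpen_lt continuous_const continuous_norm).inter (isOpen_lt continuous_norm continuous_const)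
  have hlog : ContinuousOn (fun z : ℂ => a + b * Real.log ‖z‖) {z : ℂ | r ≤ ‖z‖ ∧ ‖z‖ ≤ R} := by
    apply ContinuousOn.add continuousOn_const
    apply ContinuousOn.mul continuousOn_const
    apply ContinuousOn.log continuous_norm.continuousOn
    intro w hw
    have := hw.1
    linarith
  have key := maxPrinciple (g := fun z => g z - (a + b * Real.log ‖z‖)) hKc hUo
    (fun z hz => ⟨hz.1.le, hz.2.le⟩) (hg.sub hlog) ?_ ?_ (z := z) ⟨hz1, hz2⟩
  · linarith
  · intro w hw
    have hUK : {z : ℂ | r ≤ ‖z‖ ∧ ‖z‖ ≤ R} ∈ 𝓝 w :=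
      mem_of_superset (hUo.mem_nhds hw) fun z hz => ⟨hz.1.le, hz.2.le⟩
    have hw0 : ball (0 : ℂ) ‖w‖ ∈ 𝓝 (0 : ℂ) := isOpen_ball.mem_nhds (by
      rw [mem_ball, dist_self]; exact hr.trans hw.1)
    have hlt : ∀ᶠ s : ℝ in 𝓝[>] 0, s < ‖w‖ := by
      filter_upwards [Ioo_mem_nhdsGT (hr.trans hw.1)] with s hs using hs.2
    filter_upwards [hs w hw.1 hw.2, eventually_disc hUK, hlt] with s k1 k2 k3
    have hgc : ContinuousOn (fun ζ : ℂ => g (w + s * ζ)) (sphere 0 1) := by
      apply hg.comp (by fun_prop)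
      intro ζ hζ
      exact k2.2 ζ (by simpa using (mem_sphere_zero_iff_norm.1 hζ).le)
    have hlc : ContinuousOn (fun ζ : ℂ => a + b * Real.log ‖w + s * ζ‖) (sphere 0 1) := by
      apply hlog.comp (f := fun ζ : ℂ => w + s * ζ) (by fun_prop)
      intro ζ hζ
      exact k2.2 ζ (by simpa using (mem_sphere_zero_iff_norm.1 hζ).le)
    have hlc2 : ContinuousOn (fun ζ : ℂ => b * Real.log ‖w + s * ζ‖) (sphere 0 1) := by
      refine (hlc.sub (continuousOn_const (c := a))).congr fun ζ _ => ?_
      simp [Pi.sub_apply]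
    rw [Real.circleAverage_fun_sub (hgc.circleIntegrable zero_le_one)
      (hlc.circleIntegrable zero_le_one)]
    have h3 : Real.circleAverage (fun ζ : ℂ => a + b * Real.log ‖w + s * ζ‖) 0 1 =
        a + b * Real.log ‖w‖ := by
      rw [Real.circleAverage_fun_add (continuousOn_const.circleIntegrable zero_le_one)
        (hlc2.circleIntegrable zero_le_one), Real.circleAverage_const]
      congr 1
      rw [← Pool.Agent.Q72.WE.avg_log k2.1 k3]
      exact Real.circleAverage_smul (a := b) (f := fun ζ : ℂ => Real.log ‖w + s * ζ‖) (c := 0)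
        (R := 1)
    rw [h3]
    linarith
  · intro w hw hwU
    have : ‖w‖ = r ∨ ‖w‖ = R := by
      by_contra hcon
      push Not at hcon
      exact hwU ⟨lt_of_le_of_ne hw.1 (Ne.symm hcon.1), lt_of_le_of_ne hw.2 hcon.2⟩
    rcases this with h | h
    · have := h1 w h
      simp only [h]
      linarith
    · have := h2 w h
      simp only [h]
      linarith

/-- **Liouville's theorem**, one inequality -/
theorem liouville_le {g : ℂ → ℝ} (hg : Continuous g) (hs : ∀ z : ℂ, SubAt g z) {C : ℝ}
    (hC : ∀ z, g z ≤ C) (z : ℂ) : g z ≤ g 0 := by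
  by_cases hz : z = 0
  · rw [hz]
  have hz0 : 0 < ‖z‖ := norm_pos_iff.2 hz
  have key : ∀ ε : ℝ, 0 < ε → g z ≤ g 0 + ε := by
    intro ε hε
    -- a small circle on which `g` is at most `g 0 + ε`
    obtain ⟨d, hd, hds⟩ := Metric.mem_nhds_iff.1
      (hg.continuousAt.eventually (gt_mem_nhds (show g 0 < g 0 + ε by linarith)))
    set r : ℝ := min (d / 2) ‖z‖ with hr
    have hr0 : 0 < r := lt_min (by linarith) hz0
    have hrz : r ≤ ‖z‖ := min_le_right _ _
    have hsm : ∀ w : ℂ, ‖w‖ = r → g w ≤ g 0 + ε := by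
      intro w hw
      have h1 : w ∈ ball (0 : ℂ) d := by
        rw [mem_ball, dist_zero_right, hw]
        have : r ≤ d / 2 := min_le_left _ _
        linarith
      exact (show g w < g 0 + ε from hds h1).le
    set A : ℝ := g 0 + ε with hA
    have h0 : ∀ R : ℝ, ‖z‖ < R →
        g z ≤ A + |C - A| * (Real.log ‖z‖ - Real.log r) / (Real.log R - Real.log r) := by
      intro R hR
      have hrR : r < R := lt_of_le_of_lt hrz hR
      have hlog : 0 < Real.log R - Real.log r := by
        have := Real.log_lt_log hr0 hrR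
        linarith
      set b : ℝ := |C - A| / (Real.log R - Real.log r) with hb
      have h1 := annulus hr0 (g := g) (R := R) hg.continuousOn (fun w _ _ => hs w)
        (a := A - b * Real.log r) (b := b) (fun w hw => by linarith [hsm w hw])
        (fun w hw => by
          have h2 : b * Real.log R - b * Real.log r = |C - A| := by
            rw [hb]; field_simp
          have := hC w
          have := le_abs_self (C - A)
          linarith) (z := z) hrz hR.le
      have h3 : |C - A| * (Real.log ‖z‖ - Real.log r) / (Real.log R - Real.log r) =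
        b * Real.log ‖z‖ - b * Real.log r := by
        rw [hb]; field_simp
      rw [h3]
      linarith
    have hlim : Tendsto (fun R : ℝ => A + |C - A| * (Real.log ‖z‖ - Real.log r) /
        (Real.log R - Real.log r)) atTop (𝓝 (A + 0)) := by
      apply Tendsto.const_add
      apply Tendsto.const_div_atTop
      exact tendsto_atTop_add_const_right _ _ Real.tendsto_log_atTop
    rw [add_zero] at hlim
    apply ge_of_tendsto hlim
    filter_upwards [eventually_gt_atTop ‖z‖] with R hR using h0 R hR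
  exact le_of_forall_pos_le_add key

/-- **Liouville's theorem** -/
theorem liouville {g : ℂ → ℝ} (hg : Continuous g) (hs : ∀ z : ℂ, SubAt g z) {C : ℝ}
    (hC : ∀ z, g z ≤ C) (z : ℂ) : g z = g 0 := by
  apply le_antisymm (liouville_le hg hs hC z)
  have h1 := liouville_le (g := fun w => g (z + w)) (by fun_prop) (fun w => by
    have := hs (z + w)
    filter_upwards [this] with r hr
    simpa [add_assoc] using hr) (C := C) (fun w => hC _) (-z)
  simpa using h1

end Q72.Core
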