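import Mathlib

/-!
# The `C^s`-cores of a domain
-/

set_option autoImplicit false

open Metric Set Filter Topology

namespace Q72.Core

/-- `ℂⁿ` -/
abbrev Cn (n : ℕ) := EuclideanSpace ℂ (Fin n)

/-- A continuous plurisubharmonic function: a continuous real function on `Ω` whose value at the
centre of every closed complex disc `{a + ζ b : |ζ| ≤ 1} ⊆ Ω` is at most its mean over the
boundary circle. -/
def IsPsh {n : ℕ} (Ω : Set (Cn n)) (f : Cn n → ℝ) : Prop :=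
  ContinuousOn f Ω ∧ ∀ a b : Cn n, (∀ ζ : ℂ, ‖ζ‖ ≤ 1 → a + ζ • b ∈ Ω) →
    f a ≤ Real.circleAverage (fun ζ : ℂ => f (a + ζ • b)) 0 1

/-- `f` is strictly plurisubharmonic at `z`: for some neighbourhood `U ⊆ Ω` of `z` and some
`ε > 0` the function `f - ε |w|²` is plurisubharmonic on `U`. -/
def StrictAt {n : ℕ} (Ω : Set (Cn n)) (f : Cn n → ℝ) (z : Cn n) : Prop :=
  ∃ U : Set (Cn n), IsOpen U ∧ z ∈ U ∧ U ⊆ Ω ∧
    ∃ ε : ℝ, 0 < ε ∧ IsPsh U (fun w => f w - ε * ‖w‖ ^ 2)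

/-- the `C^s`-core of `Ω`, `s ∈ {0, 1, 2, …, ∞}`: the points at which no `C^s`-smooth
plurisubharmonic function on `Ω` that is bounded from above is strictly plurisubharmonic -/
def core {n : ℕ} (s : ℕ∞) (Ω : Set (Cn n)) : Set (Cn n) :=
  {z | z ∈ Ω ∧ ¬ ∃ f : Cn n → ℝ,
    ContDiffOn ℝ s f Ω ∧ IsPsh Ω f ∧ BddAbove (f '' Ω) ∧ StrictAt Ω f z}

end Q72.Core
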