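import Mathlib
import Pool.Agent.Q72.Core.MP

/-!
# Local sub-mean value property of `|u|² + |h|^{1/4}`
-/

set_option autoImplicit false

open Metric Set Filter Topology Q72.Psh

namespace Q72.Core

/-- touching from below -/
lemma SubAt.of_touch {g m : ℂ → ℝ} {z : ℂ} {U : Set ℂ} (hU : U ∈ 𝓝 z) (hg : ContinuousOn g U)
    (hm : Continuous m) (hle : ∀ᶠ w in 𝓝 z, m w ≤ g w) (heq : m z = g z) (h : SubAt m z) :
    SubAt g z := by
  filter_upwards [h, eventually_disc hU, eventually_disc hle] with r h1 h2 h3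
  rw [← heq]
  refine h1.trans ?_
  apply Real.circleAverage_mono
  · apply ContinuousOn.circleIntegrable zero_le_one
    fun_prop
  · apply ContinuousOn.circleIntegrable zero_le_one
    apply hg.comp (by fun_prop)
    intro ζ hζ
    exact h2.2 ζ (by simpa using (mem_sphere_zero_iff_norm.1 hζ).le)
  · intro ζ hζ
    rw [abs_one, mem_sphere_zero_iff_norm] at hζ
    exact h3.2 ζ hζ.le

/-- norms of holomorphic functions -/
lemma norm_sub {F : ℂ → ℂ} {z : ℂ} (hF : ∀ᶠ w in 𝓝 z, DifferentiableAt ℂ F w) :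
    ∀ᶠ r : ℝ in 𝓝[>] 0, ContinuousOn (fun ζ : ℂ => F (z + r * ζ)) (sphere 0 1) ∧
      ‖F z‖ ≤ Real.circleAverage (fun ζ : ℂ => ‖F (z + r * ζ)‖) 0 1 := by
  filter_upwards [eventually_disc hF] with r hr
  have hd : DifferentiableOn ℂ (fun ζ : ℂ => F (z + r * ζ)) (closedBall 0 1) := by
    intro ζ hζ
    have h1 : DifferentiableAt ℂ F (z + r * ζ) := hr.2 ζ (by simpa using hζ)
    have h2 : DifferentiableAt ℂ (fun ζ : ℂ => z + r * ζ) ζ := by fun_prop
    exact (h1.comp (f := fun ζ : ℂ => z + r * ζ) ζ h2).differentiableWithinAt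
  refine ⟨hd.continuousOn.mono sphere_subset_closedBall, ?_⟩
  have h1 : Real.circleAverage (fun ζ : ℂ => F (z + r * ζ)) 0 1 = F z := by
    have h2 : DiffContOnCl ℂ (fun ζ : ℂ => F (z + r * ζ)) (ball 0 |(1 : ℝ)|) := by
      rw [abs_one]
      exact ⟨hd.mono ball_subset_closedBall, by rw [closure_ball _ one_ne_zero]; exact hd.continuousOn⟩
    have h3 := DiffContOnCl.circleAverage h2
    simpa using h3
  rw [← h1]
  unfold Real.circleAverage
  rw [norm_smul, Real.norm_of_nonneg (by positivity), smul_eq_mul]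
  apply mul_le_mul_of_nonneg_left _ (by positivity)
  exact intervalIntegral.norm_integral_le_integral_norm (by positivity)

/-- `S c = 100 |c|^{1/4}` -/
noncomputable def S (c : ℂ) : ℝ := 100 * √(√‖c‖)

lemma S_nonneg (c : ℂ) : 0 ≤ S c := by unfold S; positivity

lemma continuous_S : Continuous S := by unfold S; fun_prop

@[fun_prop]
lemma Continuous.S {X : Type*} [TopologicalSpace X] {h : X → ℂ} (hh : Continuous h) :
    Continuous fun x => Q72.Core.S (h x) := continuous_S.comp hh

lemma S_zero : S 0 = 0 := by simp [S]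

lemma S_pow (c : ℂ) : S c ^ 4 = 10 ^ 8 * ‖c‖ := by
  unfold S
  have h1 : √(√‖c‖) ^ 2 = √‖c‖ := Real.sq_sqrt (Real.sqrt_nonneg _)
  have h2 : √‖c‖ ^ 2 = ‖c‖ := Real.sq_sqrt (norm_nonneg _)
  calc (100 * √(√‖c‖)) ^ 4 = 10 ^ 8 * ((√(√‖c‖) ^ 2) ^ 2) := by ring
    _ = 10 ^ 8 * ‖c‖ := by rw [h1, h2]

/-- a local holomorphic fourth root -/
lemma exists_root {h : ℂ → ℂ} (hh : Differentiable ℂ h) (z : ℂ) :
    ∃ H : ℂ → ℂ, (∀ᶠ w in 𝓝 z, DifferentiableAt ℂ H w) ∧ (∀ᶠ w in 𝓝 z, ‖H w‖ ≤ S (h w)) ∧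
      ‖H z‖ = S (h z) := by
  by_cases hz : h z = 0
  · refine ⟨fun _ => 0, Eventually.of_forall fun w => differentiableAt_const _,
      Eventually.of_forall fun w => ?_, ?_⟩
    · rw [norm_zero]; exact S_nonneg _
    · rw [hz, S_zero, norm_zero]
  · have hev : ∀ᶠ w in 𝓝 z, h w / h z ∈ Complex.slitPlane := by
      have hc : ContinuousAt (fun w => h w / h z) z := (hh.continuous.div_const _).continuousAt
      apply hc.eventually
      apply Complex.isOpen_slitPlane.mem_nhds
      show h z / h z ∈ Complex.slitPlane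
      rw [div_self hz]
      exact Complex.one_mem_slitPlane
    refine ⟨fun w => ((S (h z) : ℝ) : ℂ) * Complex.exp (Complex.log (h w / h z) / 4), ?_, ?_, ?_⟩
    · filter_upwards [hev] with w hw
      have h1 : DifferentiableAt ℂ (fun w => h w / h z) w := (hh w).div_const _
      have h2 := h1.clog hw
      fun_prop
    · filter_upwards [hev] with w hw
      apply le_of_eq
      have hw0 : h w / h z ≠ 0 := Complex.slitPlane_ne_zero hw
      rw [norm_mul, Complex.norm_real, Real.norm_of_nonneg (S_nonneg _), Complex.norm_exp]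
      have h1 : (Complex.log (h w / h z) / 4).re = Real.log ‖h w / h z‖ / 4 := by
        rw [show (4 : ℂ) = ((4 : ℝ) : ℂ) by norm_num, Complex.div_ofReal_re, Complex.log_re]
      rw [h1]
      have h2 : (S (h z) * Real.exp (Real.log ‖h w / h z‖ / 4)) ^ 4 = S (h w) ^ 4 := by
        rw [mul_pow, ← Real.exp_nat_mul, S_pow, S_pow]
        have h3 : ((4 : ℕ) : ℝ) * (Real.log ‖h w / h z‖ / 4) = Real.log ‖h w / h z‖ := by
          push_cast; ring
        rw [h3, Real.exp_log (norm_pos_iff.2 hw0), norm_div]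
        have h4 : ‖h z‖ ≠ 0 := norm_ne_zero_iff.2 hz
        field_simp
      exact (pow_left_inj₀ (mul_nonneg (S_nonneg _) (Real.exp_pos _).le) (S_nonneg _)
        (by norm_num)).1 h2
    · simp only [div_self hz, Complex.log_one, zero_div, Complex.exp_zero, mul_one]
      rw [Complex.norm_real, Real.norm_of_nonneg (S_nonneg _)]

/-- the building block -/
theorem subAt_block {u h : ℂ → ℂ} (hu : Differentiable ℂ u) (hh : Differentiable ℂ h) (c : ℝ)
    (z : ℂ) : SubAt (fun w => ‖u w‖ ^ 2 + S (h w) + c) z := by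
  obtain ⟨H, hH1, hH2, hH3⟩ := exists_root hh z
  have hu2 : ∀ᶠ w in 𝓝 z, DifferentiableAt ℂ (fun w => u w ^ 2) w :=
    Eventually.of_forall fun w => (hu w).pow 2
  filter_upwards [norm_sub hu2, norm_sub hH1, eventually_disc hH2] with r h1 h2 h3
  have huc := hu.continuous
  have hhc := hh.continuous
  have hi1 : CircleIntegrable (fun ζ : ℂ => ‖(fun w => u w ^ 2) (z + r * ζ)‖) 0 1 :=
    h1.1.norm.circleIntegrable zero_le_one
  have hi2 : CircleIntegrable (fun ζ : ℂ => ‖H (z + r * ζ)‖) 0 1 :=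
    h2.1.norm.circleIntegrable zero_le_one
  have hi3 : CircleIntegrable (fun ζ : ℂ => ‖(fun w => u w ^ 2) (z + r * ζ)‖ +
      ‖H (z + r * ζ)‖) 0 1 := by
    apply ContinuousOn.circleIntegrable zero_le_one
    exact h1.1.norm.add h2.1.norm
  have hi4 : CircleIntegrable (fun _ : ℂ => c) 0 1 :=
    continuousOn_const.circleIntegrable zero_le_one
  have h4 : ‖u z‖ ^ 2 + S (h z) + c ≤ Real.circleAverage
      (fun ζ : ℂ => ‖(fun w => u w ^ 2) (z + r * ζ)‖ + ‖H (z + r * ζ)‖ + c) 0 1 := by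
    rw [Real.circleAverage_fun_add hi3 hi4, Real.circleAverage_const,
      Real.circleAverage_fun_add hi1 hi2]
    have h5 := h1.2
    have h6 := h2.2
    rw [norm_pow] at h5
    rw [hH3] at h6
    linarith
  refine h4.trans ?_
  apply Real.circleAverage_mono
  · exact ((h1.1.norm.add h2.1.norm).add continuousOn_const).circleIntegrable zero_le_one
  · apply ContinuousOn.circleIntegrable zero_le_one
    fun_prop
  · intro ζ hζ
    rw [abs_one, mem_sphere_zero_iff_norm] at hζ
    have h7 := h3.2 ζ hζ.le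
    simp only [norm_pow]
    linarith

end Q72.Core
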