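import Mathlib
import Pool.Agent.Q72.Core.Defs
import Pool.Agent.Q72.Core.Sub

/-!
# The domain and the continuous plurisubharmonic function
-/

set_option autoImplicit false

open Metric Set Filter Topology Q72.Psh

namespace Q72.Core

/-- `|z|² + 100 |(x² - y²) 2 y²|^{1/4}` -/
noncomputable def Psi0 (p : Cn 3) : ℝ :=
  ‖p 0‖ ^ 2 + S ((p 1 ^ 2 - p 2 ^ 2) * (p 2 * (2 * p 2)))

/-- `|z - x|² + 100 |(x² - y²) y x|^{1/4}` -/
noncomputable def Psi1 (p : Cn 3) : ℝ :=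
  ‖p 0 - p 1‖ ^ 2 + S ((p 1 ^ 2 - p 2 ^ 2) * (p 2 * p 1))

open Classical in
/-- the glued function -/
noncomputable def Psi (p : Cn 3) : ℝ :=
  if 4 * ‖p 2‖ ≤ ‖p 1‖ then Psi1 p
  else if 3 * ‖p 1‖ ≤ 4 * ‖p 2‖ then Psi0 p
  else max (Psi0 p) (Psi1 p)

/-- the central polydisc -/
def Om1 : Set (Cn 3) := {p | ‖p 0‖ < 3 ∧ ‖p 1‖ < 1 ∧ ‖p 2‖ < 1}

/-- the neighbourhood of the lines `{y = 0, z - x = const}` -/
def T1 : Set (Cn 3) := {p | 1 / 2 < ‖p 1‖ ∧ 4 * ‖p 2‖ < ‖p 1‖ ∧ ‖p 2‖ * ‖p 1‖ ^ 3 < 1 ∧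
  3 / 4 < ‖p 0 - p 1‖ ^ 2 ∧ ‖p 0 - p 1‖ ^ 2 < 2}

/-- the neighbourhood of the lines `{x = ± y, z = const}` -/
def T0 : Set (Cn 3) := {p | 1 / 2 < ‖p 2‖ ∧ 3 * ‖p 1‖ < 4 * ‖p 2‖ ∧
  ‖p 1 ^ 2 - p 2 ^ 2‖ * ‖p 2‖ ^ 2 < 1 ∧ 3 / 4 < ‖p 0‖ ^ 2 ∧ ‖p 0‖ ^ 2 < 2}

/-- the domain -/
def Om : Set (Cn 3) := Om1 ∪ (T0 ∪ T1)

/-- the quadratic function -/
noncomputable def Q (p : Cn 3) : ℝ := ‖p‖ ^ 2 / 100 - 1 / 2

open Classical in
/-- the continuous plurisubharmonic function -/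
noncomputable def F (p : Cn 3) : ℝ := if p ∈ Om1 then max (Psi p - 1) (Q p) else Psi p - 1

lemma isOpen_Om1 : IsOpen Om1 := by
  simp only [Om1, setOf_and]
  refine IsOpen.inter ?_ (IsOpen.inter ?_ ?_) <;> exact isOpen_lt (by fun_prop) (by fun_prop)

lemma isOpen_T1 : IsOpen T1 := by
  simp only [T1, setOf_and]
  refine IsOpen.inter ?_ (IsOpen.inter ?_ (IsOpen.inter ?_ (IsOpen.inter ?_ ?_))) <;>
    exact isOpen_lt (by fun_prop) (by fun_prop)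

lemma isOpen_T0 : IsOpen T0 := by
  simp only [T0, setOf_and]
  refine IsOpen.inter ?_ (IsOpen.inter ?_ (IsOpen.inter ?_ (IsOpen.inter ?_ ?_))) <;>
    exact isOpen_lt (by fun_prop) (by fun_prop)

lemma isOpen_Om : IsOpen Om := isOpen_Om1.union (isOpen_T0.union isOpen_T1)

lemma continuous_Psi0 : Continuous Psi0 := by unfold Psi0; fun_prop

lemma continuous_Psi1 : Continuous Psi1 := by unfold Psi1; fun_prop

lemma continuous_Q : Continuous Q := by unfold Q; fun_prop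

lemma Psi_eq1 {p : Cn 3} (h : 4 * ‖p 2‖ ≤ ‖p 1‖) : Psi p = Psi1 p := by
  unfold Psi; rw [if_pos h]

lemma Psi_eq0' {p : Cn 3} (h : 3 * ‖p 1‖ ≤ 4 * ‖p 2‖) (h' : ¬ 4 * ‖p 2‖ ≤ ‖p 1‖) :
    Psi p = Psi0 p := by
  unfold Psi; rw [if_neg h', if_pos h]

lemma zero_of {p : Cn 3} (h : 3 * ‖p 1‖ ≤ 4 * ‖p 2‖) (h' : 4 * ‖p 2‖ ≤ ‖p 1‖) :
    p 1 = 0 ∧ p 2 = 0 := by
  have h1 := norm_nonneg (p 1)
  have h2 := norm_nonneg (p 2)
  constructor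
  · rw [← norm_eq_zero]; linarith
  · rw [← norm_eq_zero]; linarith

lemma Psi_eq0 {p : Cn 3} (h : 3 * ‖p 1‖ ≤ 4 * ‖p 2‖) : Psi p = Psi0 p := by
  by_cases h' : 4 * ‖p 2‖ ≤ ‖p 1‖
  · rw [Psi_eq1 h']
    obtain ⟨h1, h2⟩ := zero_of h h'
    unfold Psi0 Psi1
    rw [h1, h2]
    simp
  · exact Psi_eq0' h h'

lemma Psi_ge0 {p : Cn 3} (h : ¬ 4 * ‖p 2‖ ≤ ‖p 1‖) : Psi0 p ≤ Psi p := by
  by_cases h' : 3 * ‖p 1‖ ≤ 4 * ‖p 2‖
  · rw [Psi_eq0' h' h]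
  · unfold Psi; rw [if_neg h, if_neg h']; exact le_max_left _ _

lemma Psi_ge1 {p : Cn 3} (h : ¬ 3 * ‖p 1‖ ≤ 4 * ‖p 2‖) : Psi1 p ≤ Psi p := by
  by_cases h' : 4 * ‖p 2‖ ≤ ‖p 1‖
  · rw [Psi_eq1 h']
  · unfold Psi; rw [if_neg h', if_neg h]; exact le_max_right _ _

lemma Psi_le (p : Cn 3) : Psi p ≤ max (Psi0 p) (Psi1 p) := by
  unfold Psi
  split_ifs
  · exact le_max_right _ _
  · exact le_max_left _ _
  · exact le_rfl

/-! ### the inequalities on the two interfaces -/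

lemma sq_diff_le {z x : ℂ} (hz : ‖z‖ < 3) (hx : ‖x‖ < 1) :
    |‖z - x‖ ^ 2 - ‖z‖ ^ 2| ≤ 7 * ‖x‖ := by
  have h1 : ‖z - x‖ ≤ ‖z‖ + ‖x‖ := norm_sub_le _ _
  have h2 : ‖z‖ ≤ ‖z - x‖ + ‖x‖ := by
    have := norm_add_le (z - x) x
    simpa using this
  have h3 := norm_nonneg (z - x)
  have h4 := norm_nonneg z
  have h5 := norm_nonneg x
  rw [abs_le]
  constructor
  · nlinarith
  · nlinarith

lemma iface1 {p : Cn 3} (hp : p ∈ Om1) (h : 4 * ‖p 2‖ = ‖p 1‖) : Psi0 p ≤ Psi1 p := by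
  have hd := (abs_le.1 (sq_diff_le hp.1 hp.2.1)).1
  unfold Psi0 Psi1
  set s := S ((p 1 ^ 2 - p 2 ^ 2) * (p 2 * p 1)) with hs
  set t := S ((p 1 ^ 2 - p 2 ^ 2) * (p 2 * (2 * p 2))) with ht
  have hs0 : 0 ≤ s := S_nonneg _
  have ht0 : 0 ≤ t := S_nonneg _
  have hs4 : s ^ 4 = 10 ^ 8 * (‖p 1 ^ 2 - p 2 ^ 2‖ * (‖p 2‖ * ‖p 1‖)) := by
    rw [hs, S_pow, norm_mul, norm_mul]
  have ht4 : t ^ 4 = 10 ^ 8 * (‖p 1 ^ 2 - p 2 ^ 2‖ * (‖p 2‖ * (2 * ‖p 2‖))) := by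
    rw [ht, S_pow, norm_mul, norm_mul, norm_mul, Complex.norm_ofNat]
  have hx := norm_nonneg (p 1)
  set X := ‖p 1‖ with hX
  have hy : ‖p 2‖ = X / 4 := by linarith
  have hN : 15 / 16 * X ^ 2 ≤ ‖p 1 ^ 2 - p 2 ^ 2‖ := by
    have h1 := norm_sub_norm_le (p 1 ^ 2) (p 2 ^ 2)
    rw [norm_pow, norm_pow, hy] at h1
    nlinarith
  rw [hy] at hs4 ht4
  set N := ‖p 1 ^ 2 - p 2 ^ 2‖ with hNdef
  have h1 : t ≤ 85 / 100 * s := by
    have : t ^ 4 ≤ (85 / 100 * s) ^ 4 := by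
      rw [mul_pow, hs4, ht4]
      have : 0 ≤ N * X ^ 2 := by positivity
      nlinarith
    exact (pow_le_pow_iff_left₀ ht0 (by positivity) (by norm_num)).1 this
  have h2 : 69 * X ≤ s := by
    have : (69 * X) ^ 4 ≤ s ^ 4 := by
      rw [mul_pow, hs4]
      have h3 : 15 / 16 * X ^ 2 * X ^ 2 ≤ N * X ^ 2 := mul_le_mul_of_nonneg_right hN (by positivity)
      nlinarith [sq_nonneg (X ^ 2)]
    exact (pow_le_pow_iff_left₀ (by positivity) hs0 (by norm_num)).1 this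
  nlinarith

lemma iface0 {p : Cn 3} (hp : p ∈ Om1) (h : 3 * ‖p 1‖ = 4 * ‖p 2‖) : Psi1 p ≤ Psi0 p := by
  have hd := (abs_le.1 (sq_diff_le hp.1 hp.2.1)).2
  unfold Psi0 Psi1
  set s := S ((p 1 ^ 2 - p 2 ^ 2) * (p 2 * p 1)) with hs
  set t := S ((p 1 ^ 2 - p 2 ^ 2) * (p 2 * (2 * p 2))) with ht
  have hs0 : 0 ≤ s := S_nonneg _
  have ht0 : 0 ≤ t := S_nonneg _
  have hs4 : s ^ 4 = 10 ^ 8 * (‖p 1 ^ 2 - p 2 ^ 2‖ * (‖p 2‖ * ‖p 1‖)) := by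
    rw [hs, S_pow, norm_mul, norm_mul]
  have ht4 : t ^ 4 = 10 ^ 8 * (‖p 1 ^ 2 - p 2 ^ 2‖ * (‖p 2‖ * (2 * ‖p 2‖))) := by
    rw [ht, S_pow, norm_mul, norm_mul, norm_mul, Complex.norm_ofNat]
  have hx := norm_nonneg (p 1)
  set X := ‖p 1‖ with hX
  have hy : ‖p 2‖ = 3 / 4 * X := by linarith
  have hN : 7 / 16 * X ^ 2 ≤ ‖p 1 ^ 2 - p 2 ^ 2‖ := by
    have h1 := norm_sub_norm_le (p 1 ^ 2) (p 2 ^ 2)
    rw [norm_pow, norm_pow, hy] at h1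
    nlinarith
  rw [hy] at hs4 ht4
  set N := ‖p 1 ^ 2 - p 2 ^ 2‖ with hNdef
  have h1 : s ≤ 91 / 100 * t := by
    have : s ^ 4 ≤ (91 / 100 * t) ^ 4 := by
      rw [mul_pow, hs4, ht4]
      have : 0 ≤ N * X ^ 2 := by positivity
      nlinarith
    exact (pow_le_pow_iff_left₀ hs0 (by positivity) (by norm_num)).1 this
  have h2 : 83 * X ≤ t := by
    have : (83 * X) ^ 4 ≤ t ^ 4 := by
      rw [mul_pow, ht4]
      have h3 : 7 / 16 * X ^ 2 * X ^ 2 ≤ N * X ^ 2 := mul_le_mul_of_nonneg_right hN (by positivity)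
      nlinarith [sq_nonneg (X ^ 2)]
    exact (pow_le_pow_iff_left₀ (by positivity) ht0 (by norm_num)).1 this
  nlinarith

/-! ### continuity -/

lemma continuousOn_Psi_Om1 : ContinuousOn Psi Om1 := by
  intro p hp
  set C1 : Set (Cn 3) := {p | 4 * ‖p 2‖ ≤ ‖p 1‖} with hC1
  set C2 : Set (Cn 3) := {p | ‖p 1‖ ≤ 4 * ‖p 2‖ ∧ 4 * ‖p 2‖ ≤ 3 * ‖p 1‖} with hC2
  set C3 : Set (Cn 3) := {p | 3 * ‖p 1‖ ≤ 4 * ‖p 2‖} with hC3
  have hc1 : IsClosed C1 := isClosed_le (by fun_prop) (by fun_prop)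
  have hc2 : IsClosed C2 := by
    simp only [hC2, setOf_and]
    refine IsClosed.inter ?_ ?_ <;> exact isClosed_le (by fun_prop) (by fun_prop)
  have hc3 : IsClosed C3 := isClosed_le (by fun_prop) (by fun_prop)
  have hcov : Om1 ⊆ (Om1 ∩ C1) ∪ ((Om1 ∩ C2) ∪ (Om1 ∩ C3)) := by
    intro q hq
    by_cases h1 : 4 * ‖q 2‖ ≤ ‖q 1‖
    · exact Or.inl ⟨hq, h1⟩
    · by_cases h3 : 3 * ‖q 1‖ ≤ 4 * ‖q 2‖
      · exact Or.inr (Or.inr ⟨hq, h3⟩)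
      · exact Or.inr (Or.inl ⟨hq, (not_le.1 h1).le, (not_le.1 h3).le⟩)
  have piece : ∀ (C : Set (Cn 3)) (G : Cn 3 → ℝ), IsClosed C → Continuous G →
      (∀ q ∈ Om1 ∩ C, Psi q = G q) → ContinuousWithinAt Psi (Om1 ∩ C) p := by
    intro C G hC hG hEq
    by_cases hpC : p ∈ C
    · exact (hG.continuousAt.continuousWithinAt).congr hEq (hEq p ⟨hp, hpC⟩)
    · apply continuousWithinAt_of_notMem_closure
      intro h
      exact hpC (hC.closure_subset_iff.2 inter_subset_right h)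
  have h1 := piece C1 Psi1 hc1 continuous_Psi1 (fun q hq => Psi_eq1 hq.2)
  have h3 := piece C3 Psi0 hc3 continuous_Psi0 (fun q hq => Psi_eq0 hq.2)
  have h2 := piece C2 (fun q => max (Psi0 q) (Psi1 q)) hc2
    (continuous_Psi0.max continuous_Psi1) (fun q hq => by
      obtain ⟨hq1, hq2, hq3⟩ := hq
      by_cases h1 : 4 * ‖q 2‖ ≤ ‖q 1‖
      · rw [Psi_eq1 h1, max_eq_right (iface1 hq1 (le_antisymm h1 hq2))]
      · by_cases h3 : 3 * ‖q 1‖ ≤ 4 * ‖q 2‖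
        · rw [Psi_eq0 h3, max_eq_left (iface0 hq1 (le_antisymm h3 hq3))]
        · unfold Psi; rw [if_neg h1, if_neg h3])
  exact (h1.union (h2.union h3)).mono hcov

lemma Psi_T1 {p : Cn 3} (hp : p ∈ T1) : Psi p = Psi1 p := Psi_eq1 hp.2.1.le

lemma Psi_T0 {p : Cn 3} (hp : p ∈ T0) : Psi p = Psi0 p := Psi_eq0 hp.2.1.le

lemma Q_le {p : Cn 3} (hp : p ∈ Om1) : Q p ≤ -39 / 100 := by
  unfold Q
  rw [EuclideanSpace.norm_sq_eq, Fin.sum_univ_three]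
  obtain ⟨h0, h1, h2⟩ := hp
  have k0 := norm_nonneg (p 0)
  have k1 := norm_nonneg (p 1)
  have k2 := norm_nonneg (p 2)
  nlinarith

lemma F_T {p : Cn 3} (hp : p ∈ T0 ∪ T1) : F p = Psi p - 1 := by
  unfold F
  split_ifs with h
  · apply max_eq_left
    have h1 := Q_le h
    have h2 : 3 / 4 < Psi p := by
      rcases hp with hp | hp
      · rw [Psi_T0 hp]
        unfold Psi0
        have := hp.2.2.2.1
        have := S_nonneg ((p 1 ^ 2 - p 2 ^ 2) * (p 2 * (2 * p 2)))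
        linarith
      · rw [Psi_T1 hp]
        unfold Psi1
        have := hp.2.2.2.1
        have := S_nonneg ((p 1 ^ 2 - p 2 ^ 2) * (p 2 * p 1))
        linarith
    linarith
  · rfl

lemma continuousOn_F : ContinuousOn F Om := by
  intro p hp
  apply ContinuousAt.continuousWithinAt
  rcases hp with hp | hp | hp
  · have h1 : ContinuousOn (fun p => max (Psi p - 1) (Q p)) Om1 :=
      (continuousOn_Psi_Om1.sub continuousOn_const).sup continuous_Q.continuousOn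
    have h2 := h1.continuousAt (isOpen_Om1.mem_nhds hp)
    apply h2.congr
    filter_upwards [isOpen_Om1.mem_nhds hp] with q hq
    unfold F; rw [if_pos hq]
  · have h1 : ContinuousAt (fun p => Psi0 p - 1) p :=
      (continuous_Psi0.sub continuous_const).continuousAt
    apply h1.congr
    filter_upwards [isOpen_T0.mem_nhds hp] with q hq
    rw [F_T (Or.inl hq), Psi_T0 hq]
  · have h1 : ContinuousAt (fun p => Psi1 p - 1) p :=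
      (continuous_Psi1.sub continuous_const).continuousAt
    apply h1.congr
    filter_upwards [isOpen_T1.mem_nhds hp] with q hq
    rw [F_T (Or.inr hq), Psi_T1 hq]

lemma F_ge (p : Cn 3) : Psi p - 1 ≤ F p := by
  unfold F
  split_ifs
  · exact le_max_left _ _
  · exact le_rfl

end Q72.Core
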