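import Mathlib
import Pool.Agent.Q72.Core.Fun

/-!
# The function `F` is plurisubharmonic, bounded above and strictly plurisubharmonic at `0`
-/

set_option autoImplicit false

open Metric Set Filter Topology Q72.Psh

namespace Q72.Core

/-- touching `Psi` from below along a line -/
lemma Psi_touch (a b : Cn 3) (z : ℂ) : ∃ u h : ℂ → ℂ, Differentiable ℂ u ∧ Differentiable ℂ h ∧
    (∀ᶠ w in 𝓝 z, ‖u w‖ ^ 2 + S (h w) ≤ Psi (a + w • b)) ∧
    ‖u z‖ ^ 2 + S (h z) = Psi (a + z • b) := by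
  have hc : Continuous fun w : ℂ => a + w • b := by fun_prop
  set p : Cn 3 := a + z • b with hp
  by_cases h0 : p 1 = 0 ∧ p 2 = 0
  · obtain ⟨h1, h2⟩ := h0
    have e1 : ∀ w : ℂ, (a + w • b) 1 = (w - z) * b 1 := by
      intro w
      have : a 1 = - (z * b 1) := by
        have : a 1 + z * b 1 = 0 := by simpa [hp] using h1
        linear_combination this
      simp only [PiLp.add_apply, PiLp.smul_apply, smul_eq_mul, this]
      ring
    have e2 : ∀ w : ℂ, (a + w • b) 2 = (w - z) * b 2 := by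
      intro w
      have : a 2 = - (z * b 2) := by
        have : a 2 + z * b 2 = 0 := by simpa [hp] using h2
        linear_combination this
      simp only [PiLp.add_apply, PiLp.smul_apply, smul_eq_mul, this]
      ring
    have hval : Psi p = ‖p 0‖ ^ 2 := by
      rw [Psi_eq1 (by rw [h1, h2]; simp)]
      unfold Psi1
      rw [h1, h2]
      simp [S_zero]
    by_cases hb : 4 * ‖b 2‖ ≤ ‖b 1‖
    · refine ⟨fun w => (a + w • b) 0 - (a + w • b) 1, fun _ => 0, ?_, differentiable_const _, ?_, ?_⟩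
      · simp only [PiLp.add_apply, PiLp.smul_apply, smul_eq_mul]; fun_prop
      · apply Eventually.of_forall
        intro w
        have h3 : 4 * ‖(a + w • b) 2‖ ≤ ‖(a + w • b) 1‖ := by
          rw [e1, e2, norm_mul, norm_mul]
          nlinarith [norm_nonneg (w - z)]
        rw [Psi_eq1 h3]
        unfold Psi1
        rw [S_zero]
        have := S_nonneg (((a + w • b) 1 ^ 2 - (a + w • b) 2 ^ 2) *
          ((a + w • b) 2 * (a + w • b) 1))
        linarith
      · rw [hval, S_zero]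
        simp only [← hp, h1, sub_zero, add_zero]
    · refine ⟨fun w => (a + w • b) 0, fun _ => 0, ?_, differentiable_const _, ?_, ?_⟩
      · simp only [PiLp.add_apply, PiLp.smul_apply, smul_eq_mul]; fun_prop
      · apply Eventually.of_forall
        intro w
        by_cases hw : w = z
        · rw [hw, S_zero, ← hp, hval, add_zero]
        · have h3 : ¬ 4 * ‖(a + w • b) 2‖ ≤ ‖(a + w • b) 1‖ := by
            rw [e1, e2, norm_mul, norm_mul]
            push Not at hb ⊢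
            have : 0 < ‖w - z‖ := norm_pos_iff.2 (sub_ne_zero.2 hw)
            nlinarith
          refine le_trans ?_ (Psi_ge0 h3)
          unfold Psi0
          rw [S_zero]
          have := S_nonneg (((a + w • b) 1 ^ 2 - (a + w • b) 2 ^ 2) *
            ((a + w • b) 2 * (2 * (a + w • b) 2)))
          linarith
      · rw [hval, S_zero]
        simp only [← hp, add_zero]
  · -- away from the singular line
    have t1 : (∀ᶠ w in 𝓝 z, Psi1 (a + w • b) ≤ Psi (a + w • b)) → Psi1 p = Psi p →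
        ∃ u h : ℂ → ℂ, Differentiable ℂ u ∧ Differentiable ℂ h ∧
        (∀ᶠ w in 𝓝 z, ‖u w‖ ^ 2 + S (h w) ≤ Psi (a + w • b)) ∧
        ‖u z‖ ^ 2 + S (h z) = Psi p := by
      intro h1 h2
      refine ⟨fun w => (a + w • b) 0 - (a + w • b) 1, fun w => ((a + w • b) 1 ^ 2 -
        (a + w • b) 2 ^ 2) * ((a + w • b) 2 * (a + w • b) 1), ?_, ?_, h1, h2⟩
      · simp only [PiLp.add_apply, PiLp.smul_apply, smul_eq_mul]; fun_prop
      · simp only [PiLp.add_apply, PiLp.smul_apply, smul_eq_mul]; fun_prop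
    have t0 : (∀ᶠ w in 𝓝 z, Psi0 (a + w • b) ≤ Psi (a + w • b)) → Psi0 p = Psi p →
        ∃ u h : ℂ → ℂ, Differentiable ℂ u ∧ Differentiable ℂ h ∧
        (∀ᶠ w in 𝓝 z, ‖u w‖ ^ 2 + S (h w) ≤ Psi (a + w • b)) ∧
        ‖u z‖ ^ 2 + S (h z) = Psi p := by
      intro h1 h2
      refine ⟨fun w => (a + w • b) 0, fun w => ((a + w • b) 1 ^ 2 -
        (a + w • b) 2 ^ 2) * ((a + w • b) 2 * (2 * (a + w • b) 2)), ?_, ?_, h1, h2⟩
      · simp only [PiLp.add_apply, PiLp.smul_apply, smul_eq_mul]; fun_prop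
      · simp only [PiLp.add_apply, PiLp.smul_apply, smul_eq_mul]; fun_prop
    have ev1 : ¬ 3 * ‖p 1‖ ≤ 4 * ‖p 2‖ → ∀ᶠ w in 𝓝 z, Psi1 (a + w • b) ≤ Psi (a + w • b) := by
      intro h
      have ho : IsOpen {q : Cn 3 | 4 * ‖q 2‖ < 3 * ‖q 1‖} := isOpen_lt (by fun_prop) (by fun_prop)
      have h3 : {q : Cn 3 | 4 * ‖q 2‖ < 3 * ‖q 1‖} ∈ 𝓝 (a + z • b) :=
        ho.mem_nhds (show 4 * ‖p 2‖ < 3 * ‖p 1‖ from not_le.1 h)
      filter_upwards [hc.continuousAt.preimage_mem_nhds h3] with w hw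
      exact Psi_ge1 (not_le.2 hw)
    have ev0 : ¬ 4 * ‖p 2‖ ≤ ‖p 1‖ → ∀ᶠ w in 𝓝 z, Psi0 (a + w • b) ≤ Psi (a + w • b) := by
      intro h
      have ho : IsOpen {q : Cn 3 | ‖q 1‖ < 4 * ‖q 2‖} := isOpen_lt (by fun_prop) (by fun_prop)
      have h3 : {q : Cn 3 | ‖q 1‖ < 4 * ‖q 2‖} ∈ 𝓝 (a + z • b) :=
        ho.mem_nhds (show ‖p 1‖ < 4 * ‖p 2‖ from not_le.1 h)
      filter_upwards [hc.continuousAt.preimage_mem_nhds h3] with w hw
      exact Psi_ge0 (not_le.2 hw)
    by_cases h1 : 4 * ‖p 2‖ ≤ ‖p 1‖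
    · apply t1 (ev1 fun h3 => h0 (zero_of h3 h1)) (Psi_eq1 h1).symm
    · by_cases h3 : 3 * ‖p 1‖ ≤ 4 * ‖p 2‖
      · exact t0 (ev0 h1) (Psi_eq0 h3).symm
      · have hm : Psi p = max (Psi0 p) (Psi1 p) := by unfold Psi; rw [if_neg h1, if_neg h3]
        rcases le_total (Psi0 p) (Psi1 p) with h4 | h4
        · exact t1 (ev1 h3) (by rw [hm, max_eq_right h4])
        · exact t0 (ev0 h1) (by rw [hm, max_eq_left h4])

/-- quadratic functions along a line -/
lemma subAt_Q (a b : Cn 3) (z : ℂ) : SubAt (fun w => Q (a + w • b)) z := by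
  have h : ∀ i : Fin 3, SubAt (fun w => ‖a i + w * b i‖ ^ 2 + S 0 + 0) z := fun i =>
    subAt_block (u := fun w => a i + w * b i) (h := fun _ => 0) (by fun_prop) (by fun_prop) 0 z
  filter_upwards [h 0, h 1, h 2] with r h0 h1 h2
  simp only [S_zero, add_zero] at h0 h1 h2
  have e : ∀ w : ℂ, Q (a + w • b) = (1 / 100 : ℝ) * (‖a 0 + w * b 0‖ ^ 2 + ‖a 1 + w * b 1‖ ^ 2 +
      ‖a 2 + w * b 2‖ ^ 2) + (-1 / 2) := by
    intro w
    unfold Q
    rw [EuclideanSpace.norm_sq_eq, Fin.sum_univ_three]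
    simp only [PiLp.add_apply, PiLp.smul_apply, smul_eq_mul]
    ring
  simp only [e]
  have hi : ∀ i : Fin 3, CircleIntegrable (fun ζ : ℂ => ‖a i + (z + r * ζ) * b i‖ ^ 2) 0 1 := by
    intro i
    apply ContinuousOn.circleIntegrable zero_le_one
    fun_prop
  have h3 : Real.circleAverage (fun ζ : ℂ => (1 / 100 : ℝ) * (‖a 0 + (z + r * ζ) * b 0‖ ^ 2 +
      ‖a 1 + (z + r * ζ) * b 1‖ ^ 2 + ‖a 2 + (z + r * ζ) * b 2‖ ^ 2) + (-1 / 2)) 0 1 =
      (1 / 100 : ℝ) * (Real.circleAverage (fun ζ : ℂ => ‖a 0 + (z + r * ζ) * b 0‖ ^ 2) 0 1 +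
      Real.circleAverage (fun ζ : ℂ => ‖a 1 + (z + r * ζ) * b 1‖ ^ 2) 0 1 +
      Real.circleAverage (fun ζ : ℂ => ‖a 2 + (z + r * ζ) * b 2‖ ^ 2) 0 1) + (-1 / 2) := by
    rw [Real.circleAverage_fun_add
      (by apply ContinuousOn.circleIntegrable zero_le_one; fun_prop)
      (by apply ContinuousOn.circleIntegrable zero_le_one; fun_prop), Real.circleAverage_const]
    congr 1
    rw [← Real.circleAverage_fun_add (hi 0) (hi 1), ← Real.circleAverage_fun_add
      (by apply ContinuousOn.circleIntegrable zero_le_one; fun_prop) (hi 2)]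
    exact Real.circleAverage_smul (a := (1 / 100 : ℝ)) (f := fun ζ : ℂ =>
      ‖a 0 + (z + r * ζ) * b 0‖ ^ 2 + ‖a 1 + (z + r * ζ) * b 1‖ ^ 2 +
      ‖a 2 + (z + r * ζ) * b 2‖ ^ 2) (c := 0) (R := 1)
  rw [h3]
  linarith

/-- the local sub-mean value property of `F` along lines -/
lemma subAt_F {a b : Cn 3} {z : ℂ} (hz : a + z • b ∈ Om) :
    SubAt (fun w => F (a + w • b)) z := by
  have hc : Continuous fun w : ℂ => a + w • b := by fun_prop
  have hU : (fun w : ℂ => a + w • b) ⁻¹' Om ∈ 𝓝 z :=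
    hc.continuousAt.preimage_mem_nhds (isOpen_Om.mem_nhds hz)
  have hg : ContinuousOn (fun w => F (a + w • b)) ((fun w : ℂ => a + w • b) ⁻¹' Om) :=
    continuousOn_F.comp hc.continuousOn (fun w hw => hw)
  by_cases h1 : F (a + z • b) = Psi (a + z • b) - 1
  · obtain ⟨u, h, hu, hh, hle, heq⟩ := Psi_touch a b z
    have huc := hu.continuous
    have hhc := hh.continuous
    apply SubAt.of_touch hU hg (m := fun w => ‖u w‖ ^ 2 + S (h w) + (-1)) (by fun_prop) _ _
      (subAt_block hu hh _ z)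
    · filter_upwards [hle] with w hw
      have := F_ge (a + w • b)
      linarith
    · rw [heq, h1]; ring
  · have h2 : a + z • b ∈ Om1 := by
      by_contra h
      apply h1
      unfold F; rw [if_neg h]
    have h3 : F (a + z • b) = Q (a + z • b) := by
      unfold F at h1 ⊢
      rw [if_pos h2] at h1 ⊢
      rcases max_choice (Psi (a + z • b) - 1) (Q (a + z • b)) with h | h
      · exact absurd h h1
      · exact h
    have hQc : Continuous fun w : ℂ => Q (a + w • b) := continuous_Q.comp hc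
    apply SubAt.of_touch hU hg (m := fun w => Q (a + w • b)) hQc _ h3.symm (subAt_Q a b z)
    filter_upwards [hc.continuousAt.preimage_mem_nhds (isOpen_Om1.mem_nhds h2)] with w hw
    have hw' : a + w • b ∈ Om1 := hw
    unfold F
    rw [if_pos hw']
    exact le_max_right _ _

theorem isPsh_F : IsPsh Om F := by
  refine ⟨continuousOn_F, fun a b hab => ?_⟩
  have hc : Continuous fun w : ℂ => a + w • b := by fun_prop
  have h1 := global_of_local (k := fun w => F (a + w • b))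
    (continuousOn_F.comp hc.continuousOn fun w hw => hab w (by simpa using hw))
    (fun z hz => subAt_F (hab z hz.le))
  simpa using h1

lemma S_le {c : ℂ} (h : ‖c‖ ≤ 16) : S c ≤ 200 := by
  have h1 : S c ^ 4 ≤ 200 ^ 4 := by rw [S_pow]; linarith
  exact (pow_le_pow_iff_left₀ (S_nonneg _) (by norm_num) (by norm_num)).1 h1

theorem bddAbove_F : BddAbove (F '' Om) := by
  refine ⟨300, ?_⟩
  rintro _ ⟨p, hp, rfl⟩
  rcases hp with hp | hp | hp
  · have hQ := Q_le hp
    have hF : F p = max (Psi p - 1) (Q p) := by unfold F; rw [if_pos hp]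
    rw [hF]
    apply max_le _ (by linarith)
    have h1 := Psi_le p
    obtain ⟨k0, k1, k2⟩ := hp
    have l0 := norm_nonneg (p 0)
    have l1 := norm_nonneg (p 1)
    have l2 := norm_nonneg (p 2)
    have hn : ‖p 1 ^ 2 - p 2 ^ 2‖ ≤ 2 := by
      refine (norm_sub_le _ _).trans ?_
      rw [norm_pow, norm_pow]
      nlinarith
    have h2 : Psi0 p ≤ 209 := by
      unfold Psi0
      have : S ((p 1 ^ 2 - p 2 ^ 2) * (p 2 * (2 * p 2))) ≤ 200 := by
        apply S_le
        rw [norm_mul, norm_mul, norm_mul, Complex.norm_ofNat]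
        have : ‖p 2‖ * (2 * ‖p 2‖) ≤ 2 := by nlinarith
        nlinarith [norm_nonneg (p 1 ^ 2 - p 2 ^ 2), mul_nonneg l2 (mul_nonneg zero_le_two l2)]
      nlinarith
    have h3 : Psi1 p ≤ 216 := by
      unfold Psi1
      have : S ((p 1 ^ 2 - p 2 ^ 2) * (p 2 * p 1)) ≤ 200 := by
        apply S_le
        rw [norm_mul, norm_mul]
        have : ‖p 2‖ * ‖p 1‖ ≤ 1 := by nlinarith
        nlinarith [norm_nonneg (p 1 ^ 2 - p 2 ^ 2), mul_nonneg l2 l1]
      have h4 : ‖p 0 - p 1‖ ≤ 4 := by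
        refine (norm_sub_le _ _).trans ?_
        linarith
      nlinarith [norm_nonneg (p 0 - p 1)]
    have h5 : max (Psi0 p) (Psi1 p) ≤ 216 := max_le (h2.trans (by norm_num)) h3
    linarith
  · rw [F_T (Or.inl hp), Psi_T0 hp]
    unfold Psi0
    obtain ⟨k1, k2, k3, k4, k5⟩ := hp
    have : S ((p 1 ^ 2 - p 2 ^ 2) * (p 2 * (2 * p 2))) ≤ 200 := by
      apply S_le
      rw [norm_mul, norm_mul, norm_mul, Complex.norm_ofNat]
      nlinarith
    linarith
  · rw [F_T (Or.inr hp), Psi_T1 hp]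
    unfold Psi1
    obtain ⟨k1, k2, k3, k4, k5⟩ := hp
    have : S ((p 1 ^ 2 - p 2 ^ 2) * (p 2 * p 1)) ≤ 200 := by
      apply S_le
      rw [norm_mul, norm_mul]
      have l1 := norm_nonneg (p 1)
      have l2 := norm_nonneg (p 2)
      have hn : ‖p 1 ^ 2 - p 2 ^ 2‖ ≤ 2 * ‖p 1‖ ^ 2 := by
        refine (norm_sub_le _ _).trans ?_
        rw [norm_pow, norm_pow]
        nlinarith
      calc ‖p 1 ^ 2 - p 2 ^ 2‖ * (‖p 2‖ * ‖p 1‖) ≤ 2 * ‖p 1‖ ^ 2 * (‖p 2‖ * ‖p 1‖) :=
            mul_le_mul_of_nonneg_right hn (by positivity)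
        _ = 2 * (‖p 2‖ * ‖p 1‖ ^ 3) := by ring
        _ ≤ 16 := by linarith
    linarith

lemma zero_mem_Om1 : (0 : Cn 3) ∈ Om1 := by simp [Om1]

theorem strictAt_F : StrictAt Om F 0 := by
  have h0 : ContinuousAt (fun p => Psi p - 1 - Q p) (0 : Cn 3) :=
    ((continuousOn_Psi_Om1.continuousAt (isOpen_Om1.mem_nhds zero_mem_Om1)).sub
      continuousAt_const).sub continuous_Q.continuousAt
  have hv : Psi (0 : Cn 3) - 1 - Q 0 < 0 := by
    have h1 : Psi (0 : Cn 3) = 0 := by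
      rw [Psi_eq1 (by simp)]
      simp [Psi1, S_zero]
    have h2 : Q (0 : Cn 3) = -1 / 2 := by simp [Q]; norm_num
    rw [h1, h2]; norm_num
  have hev : ∀ᶠ p in 𝓝 (0 : Cn 3), p ∈ Om1 ∧ Psi p - 1 - Q p < 0 :=
    (isOpen_Om1.eventually_mem zero_mem_Om1).and (h0.eventually (gt_mem_nhds hv))
  obtain ⟨U, hUs, hUo, h0U⟩ := _root_.eventually_nhds_iff.1 hev
  refine ⟨U, hUo, h0U, fun p hp => Or.inl (hUs p hp).1, 1 / 100, by norm_num, ?_⟩
  have hconst : ∀ p ∈ U, F p - 1 / 100 * ‖p‖ ^ 2 = -1 / 2 := by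
    intro p hp
    obtain ⟨h1, h2⟩ := hUs p hp
    have : F p = Q p := by
      unfold F
      rw [if_pos h1]
      apply max_eq_right
      linarith
    rw [this]
    unfold Q
    ring
  refine ⟨continuousOn_const.congr hconst, fun a b hab => ?_⟩
  have h1 : Real.circleAverage (fun ζ : ℂ => F (a + ζ • b) - 1 / 100 * ‖a + ζ • b‖ ^ 2) 0 1 =
      Real.circleAverage (fun _ : ℂ => (-1 / 2 : ℝ)) 0 1 := by
    apply Real.circleAverage_congr_sphere
    intro ζ hζ
    rw [abs_one, mem_sphere_zero_iff_norm] at hζ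
    exact hconst _ (hab ζ hζ.le)
  rw [h1, Real.circleAverage_const]
  have h2 : a ∈ U := by
    have := hab 0 (by simp)
    simpa using this
  exact (hconst a h2).le

end Q72.Core
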