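import Mathlib
import Pool.Agent.Q72.Core.Psh
import Pool.Agent.Q72.Core.Ann

/-!
# No `C¹` function works; connectedness of the domain
-/

set_option autoImplicit false

open Metric Set Filter Topology Q72.Psh

namespace Q72.Core

/-! ### connectedness -/

lemma convex_Om1 : Convex ℝ Om1 := by
  have h : ∀ (i : Fin 3) (c : ℝ), Convex ℝ {p : Cn 3 | ‖p i‖ < c} := by
    intro i c x hx y hy a b ha hb hab
    simp only [mem_setOf_eq, PiLp.add_apply, PiLp.smul_apply] at hx hy ⊢
    refine lt_of_le_of_lt (norm_add_le _ _) ?_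
    rw [norm_smul, norm_smul, Real.norm_of_nonneg ha, Real.norm_of_nonneg hb]
    rcases ha.eq_or_lt with h0 | h0
    · rw [← h0] at hab ⊢
      have : b = 1 := by linarith
      rw [this]; linarith
    · have h1 : a * ‖x i‖ < a * c := mul_lt_mul_of_pos_left hx h0
      have h2 : b * ‖y i‖ ≤ b * c := mul_le_mul_of_nonneg_left hy.le hb
      have h3 : a * c + b * c = c := by rw [← add_mul, hab, one_mul]
      linarith
  have := (h 0 3).inter ((h 1 1).inter (h 2 1))
  simpa only [Om1, ofPred_and] using this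

lemma isPreconnected_Om : IsPreconnected Om := by
  apply isPreconnected_of_forall (0 : Cn 3)
  -- connecting a point to the polydisc
  have conn : ∀ (y v : Cn 3) (s0 : ℝ), s0 ≤ 1 →
      (∀ s ∈ Icc s0 1, y + (s - 1) • v ∈ Om) → y + (s0 - 1) • v ∈ Om1 →
      ∃ t ⊆ Om, (0 : Cn 3) ∈ t ∧ y ∈ t ∧ IsPreconnected t := by
    intro y v s0 hs0 h1 h2
    refine ⟨Om1 ∪ (fun s : ℝ => y + (s - 1) • v) '' Icc s0 1, ?_, Or.inl zero_mem_Om1, Or.inr
      ⟨1, ⟨hs0, le_rfl⟩, by simp⟩, ?_⟩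
    · apply union_subset
      · exact fun p hp => Or.inl hp
      · rintro _ ⟨s, hs, rfl⟩
        exact h1 s hs
    · refine IsPreconnected.union (y + (s0 - 1) • v) h2 ?_ convex_Om1.isPreconnected ?_
      · exact ⟨s0, ⟨le_rfl, hs0⟩, rfl⟩
      · apply isPreconnected_Icc.image
        fun_prop
  intro y hy
  by_cases hy1 : y ∈ Om1
  · exact ⟨Om1, fun p hp => Or.inl hp, zero_mem_Om1, hy1, convex_Om1.isPreconnected⟩
  rcases hy with hy | hy | hy
  · exact absurd hy hy1
  · -- `T0`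
    obtain ⟨k1, k2, k3, k4, k5⟩ := hy
    have hz : ‖y 0‖ < 3 / 2 := by nlinarith [norm_nonneg (y 0)]
    have hy2 : 3 / 4 ≤ ‖y 2‖ := by
      by_contra hcon
      push Not at hcon
      apply hy1
      refine ⟨by linarith, by linarith, by linarith⟩
    have hy0 : 0 < ‖y 2‖ := by linarith
    set v : Cn 3 := WithLp.toLp 2 ![0, y 1, y 2] with hv
    have c0 : ∀ s : ℝ, (y + (s - 1) • v) 0 = y 0 := by
      intro s; simp [hv]
    have c1 : ∀ s : ℝ, (y + (s - 1) • v) 1 = s * y 1 := by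
      intro s; simp [hv]; ring
    have c2 : ∀ s : ℝ, (y + (s - 1) • v) 2 = s * y 2 := by
      intro s; simp [hv]; ring
    set s0 : ℝ := 3 / 4 / ‖y 2‖ with hs0
    have hs0p : 0 < s0 := by positivity
    have hs0e : s0 * ‖y 2‖ = 3 / 4 := by rw [hs0]; field_simp
    have hs01 : s0 ≤ 1 := by rw [hs0, div_le_one hy0]; exact hy2
    apply conn y v s0 hs01
    · intro s hs
      have hsp : 0 < s := lt_of_lt_of_le hs0p hs.1
      have hs2 : 3 / 4 ≤ s * ‖y 2‖ := by
        rw [← hs0e]; exact mul_le_mul_of_nonneg_right hs.1 hy0.le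
      refine Or.inr (Or.inl ?_)
      refine ⟨?_, ?_, ?_, ?_, ?_⟩
      · rw [c2, norm_mul, Complex.norm_real, Real.norm_of_nonneg hsp.le]; linarith
      · rw [c1, c2, norm_mul, norm_mul, Complex.norm_real, Real.norm_of_nonneg hsp.le]
        nlinarith
      · rw [c1, c2]
        have e : ((s : ℂ) * y 1) ^ 2 - ((s : ℂ) * y 2) ^ 2 = (s : ℂ) ^ 2 * (y 1 ^ 2 - y 2 ^ 2) := by
          ring
        rw [e, norm_mul, norm_mul, norm_pow, Complex.norm_real, Real.norm_of_nonneg hsp.le]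
        have e2 : s ^ 2 * ‖y 1 ^ 2 - y 2 ^ 2‖ * (s * ‖y 2‖) ^ 2 =
          s ^ 4 * (‖y 1 ^ 2 - y 2 ^ 2‖ * ‖y 2‖ ^ 2) := by ring
        rw [e2]
        have h1 : s ^ 4 ≤ 1 := pow_le_one₀ hsp.le hs.2
        have h2 : 0 ≤ ‖y 1 ^ 2 - y 2 ^ 2‖ * ‖y 2‖ ^ 2 := by positivity
        nlinarith
      · rw [c0]; exact k4
      · rw [c0]; exact k5
    · refine ⟨?_, ?_, ?_⟩
      · rw [c0]; linarith
      · rw [c1, norm_mul, Complex.norm_real, Real.norm_of_nonneg hs0p.le]
        nlinarith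
      · rw [c2, norm_mul, Complex.norm_real, Real.norm_of_nonneg hs0p.le]
        linarith
  · -- `T1`
    obtain ⟨k1, k2, k3, k4, k5⟩ := hy
    have hz : ‖y 0 - y 1‖ < 3 / 2 := by nlinarith [norm_nonneg (y 0 - y 1)]
    have hz2 : ‖y 0‖ ≤ ‖y 0 - y 1‖ + ‖y 1‖ := by
      have := norm_add_le (y 0 - y 1) (y 1)
      simpa using this
    have hy2 : 3 / 4 ≤ ‖y 1‖ := by
      by_contra hcon
      push Not at hcon
      apply hy1
      refine ⟨by linarith, by linarith, by linarith⟩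
    have hy0 : 0 < ‖y 1‖ := by linarith
    set v : Cn 3 := WithLp.toLp 2 ![y 1, y 1, y 2] with hv
    have c0 : ∀ s : ℝ, (y + (s - 1) • v) 0 = (y 0 - y 1) + s * y 1 := by
      intro s; simp [hv]; ring
    have c1 : ∀ s : ℝ, (y + (s - 1) • v) 1 = s * y 1 := by
      intro s; simp [hv]; ring
    have c2 : ∀ s : ℝ, (y + (s - 1) • v) 2 = s * y 2 := by
      intro s; simp [hv]; ring
    have c01 : ∀ s : ℝ, (y + (s - 1) • v) 0 - (y + (s - 1) • v) 1 = y 0 - y 1 := by
      intro s; rw [c0, c1]; ring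
    set s0 : ℝ := 3 / 4 / ‖y 1‖ with hs0
    have hs0p : 0 < s0 := by positivity
    have hs0e : s0 * ‖y 1‖ = 3 / 4 := by rw [hs0]; field_simp
    have hs01 : s0 ≤ 1 := by rw [hs0, div_le_one hy0]; exact hy2
    apply conn y v s0 hs01
    · intro s hs
      have hsp : 0 < s := lt_of_lt_of_le hs0p hs.1
      have hs2 : 3 / 4 ≤ s * ‖y 1‖ := by
        rw [← hs0e]; exact mul_le_mul_of_nonneg_right hs.1 hy0.le
      refine Or.inr (Or.inr ?_)
      refine ⟨?_, ?_, ?_, ?_, ?_⟩
      · rw [c1, norm_mul, Complex.norm_real, Real.norm_of_nonneg hsp.le]; linarith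
      · rw [c1, c2, norm_mul, norm_mul, Complex.norm_real, Real.norm_of_nonneg hsp.le]
        nlinarith
      · rw [c1, c2, norm_mul, norm_mul, Complex.norm_real, Real.norm_of_nonneg hsp.le]
        have e2 : s * ‖y 2‖ * (s * ‖y 1‖) ^ 3 = s ^ 4 * (‖y 2‖ * ‖y 1‖ ^ 3) := by ring
        rw [e2]
        have h1 : s ^ 4 ≤ 1 := pow_le_one₀ hsp.le hs.2
        have h2 : 0 ≤ ‖y 2‖ * ‖y 1‖ ^ 3 := by positivity
        nlinarith
      · rw [c01]; exact k4
      · rw [c01]; exact k5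
    · refine ⟨?_, ?_, ?_⟩
      · rw [c0]
        refine lt_of_le_of_lt (norm_add_le _ _) ?_
        rw [norm_mul, Complex.norm_real, Real.norm_of_nonneg hs0p.le]
        linarith
      · rw [c1, norm_mul, Complex.norm_real, Real.norm_of_nonneg hs0p.le]
        linarith
      · rw [c2, norm_mul, Complex.norm_real, Real.norm_of_nonneg hs0p.le]
        nlinarith

theorem isConnected_Om : IsConnected Om := ⟨⟨0, Or.inl zero_mem_Om1⟩, isPreconnected_Om⟩

/-! ### lines -/

lemma subAt_line {f : Cn 3 → ℝ} (hf : IsPsh Om f) {a b : Cn 3} {z : ℂ} (hz : a + z • b ∈ Om) :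
    SubAt (fun w => f (a + w • b)) z := by
  have hc : Continuous fun w : ℂ => a + w • b := by fun_prop
  have hU : (fun w : ℂ => a + w • b) ⁻¹' Om ∈ 𝓝 z :=
    hc.continuousAt.preimage_mem_nhds (isOpen_Om.mem_nhds hz)
  filter_upwards [eventually_disc hU] with r hr
  have e : ∀ ζ : ℂ, (a + z • b) + ζ • ((r : ℂ) • b) = a + (z + r * ζ) • b := by
    intro ζ
    rw [smul_smul, add_smul, add_assoc, mul_comm ζ]
  have h1 := hf.2 (a + z • b) ((r : ℂ) • b) (fun ζ hζ => by rw [e]; exact hr.2 ζ hζ)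
  simpa only [e] using h1

lemma const_line {f : Cn 3 → ℝ} (hf : IsPsh Om f) (hb : BddAbove (f '' Om)) {q v : Cn 3}
    (h : ∀ ζ : ℂ, q + ζ • v ∈ Om) (ζ : ℂ) : f (q + ζ • v) = f q := by
  obtain ⟨C, hC⟩ := hb
  have hc : Continuous fun w : ℂ => q + w • v := by fun_prop
  have h1 := liouville (g := fun w => f (q + w • v))
    (by
      rw [← continuousOn_univ]
      exact hf.1.comp hc.continuousOn fun w _ => h w)
    (fun z => subAt_line hf (h z)) (C := C) (fun z => hC ⟨_, h z, rfl⟩) ζ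
  simpa using h1

lemma deriv_line {f : Cn 3 → ℝ} (hf : IsPsh Om f) (hb : BddAbove (f '' Om)) {q v : Cn 3}
    (h : ∀ ζ : ℂ, q + ζ • v ∈ Om) {L : Cn 3 →L[ℝ] ℝ} (hL : HasFDerivAt f L q) (c : ℂ) :
    L (c • v) = 0 := by
  have h1 : HasDerivAt (fun t : ℝ => q + t • (c • v)) (c • v) 0 := by
    simpa using ((hasDerivAt_id (0 : ℝ)).smul_const (c • v)).const_add q
  have h2 : HasFDerivAt f L (q + (0 : ℝ) • (c • v)) := by simpa using hL
  have h3 := h2.comp_hasDerivAt (0 : ℝ) h1
  have h4 : (f ∘ fun t : ℝ => q + t • (c • v)) = fun _ => f q := by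
    ext t
    have e : q + t • (c • v) = q + ((t : ℂ) * c) • v := by
      rw [mul_smul, Complex.coe_smul]
    rw [Function.comp_apply, e]
    exact const_line hf hb h _
  rw [h4] at h3
  exact h3.unique (hasDerivAt_const _ _)

/-- the first basis vector -/
noncomputable def e0 : Cn 3 := WithLp.toLp 2 ![1, 0, 0]

lemma e0_mem {ζ : ℂ} (h : ‖ζ‖ < 3) : ζ • e0 ∈ Om := by
  refine Or.inl ⟨?_, ?_, ?_⟩ <;> simp [e0, h]

lemma norm_e0 : ‖e0‖ = 1 := by
  rw [EuclideanSpace.norm_eq, Fin.sum_univ_three]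
  simp [e0]

/-- the differential vanishes along the unit circle -/
lemma deriv_circle {f : Cn 3 → ℝ} (hf : IsPsh Om f) (hb : BddAbove (f '' Om)) {e : ℂ}
    (he : ‖e‖ = 1) {L : Cn 3 →L[ℝ] ℝ} (hL : HasFDerivAt f L (e • e0)) (c : ℂ) :
    L (c • e0) = 0 := by
  have l1 : ∀ ζ : ℂ, e • e0 + ζ • (WithLp.toLp 2 ![1, 1, 0] : Cn 3) ∈ Om := by
    intro ζ
    by_cases hζ : ‖ζ‖ < 1
    · refine Or.inl ⟨?_, ?_, ?_⟩
      · have := norm_add_le e ζ
        simp [e0]
        linarith
      · simpa [e0] using hζ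
      · simp [e0]
    · push Not at hζ
      refine Or.inr (Or.inr ⟨?_, ?_, ?_, ?_, ?_⟩)
      · simp [e0]; linarith
      · simp [e0]
        intro h; rw [h] at hζ; simp at hζ; linarith
      · simp [e0]
      · simp [e0, he]; norm_num
      · simp [e0, he]
  have l2 : ∀ ζ : ℂ, e • e0 + ζ • (WithLp.toLp 2 ![0, 1, 1] : Cn 3) ∈ Om := by
    intro ζ
    by_cases hζ : ‖ζ‖ < 1
    · refine Or.inl ⟨?_, ?_, ?_⟩
      · simp [e0, he]
      · simpa [e0] using hζ
      · simpa [e0] using hζ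
    · push Not at hζ
      refine Or.inr (Or.inl ⟨?_, ?_, ?_, ?_, ?_⟩)
      · simp [e0]; linarith
      · simp [e0]
        linarith
      · simp [e0]
      · simp [e0, he]; norm_num
      · simp [e0, he]
  have l3 : ∀ ζ : ℂ, e • e0 + ζ • (WithLp.toLp 2 ![0, 1, -1] : Cn 3) ∈ Om := by
    intro ζ
    by_cases hζ : ‖ζ‖ < 1
    · refine Or.inl ⟨?_, ?_, ?_⟩
      · simp [e0, he]
      · simpa [e0] using hζ
      · simpa [e0] using hζ
    · push Not at hζ
      refine Or.inr (Or.inl ⟨?_, ?_, ?_, ?_, ?_⟩)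
      · simp [e0]; linarith
      · simp [e0]
        linarith
      · simp [e0]
      · simp [e0, he]; norm_num
      · simp [e0, he]
  have d1 := deriv_line hf hb l1 hL c
  have d2 := deriv_line hf hb l2 hL (c / 2)
  have d3 := deriv_line hf hb l3 hL (c / 2)
  have e1 : c • e0 = c • (WithLp.toLp 2 ![1, 1, 0] : Cn 3) -
      (c / 2) • (WithLp.toLp 2 ![0, 1, 1] : Cn 3) - (c / 2) • (WithLp.toLp 2 ![0, 1, -1] : Cn 3) := by
    ext i
    fin_cases i <;> simp [e0]
    ring
  rw [e1, map_sub, map_sub, d1, d2, d3]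
  norm_num

/-- **no differentiable function** -/
theorem no_C1 {f : Cn 3 → ℝ} (hd : ∀ p ∈ Om, DifferentiableAt ℝ f p) (hf : IsPsh Om f)
    (hb : BddAbove (f '' Om)) : ¬ StrictAt Om f 0 := by
  set u : ℂ → ℝ := fun ζ => f (ζ • e0) with hu
  have hsm : ∀ z : ℂ, ‖z‖ < 3 → SubAt u z := by
    intro z hz
    have h := subAt_line hf (a := 0) (b := e0) (z := z) (by rw [zero_add]; exact e0_mem hz)
    simpa only [zero_add] using h
  have huc : ContinuousOn u (ball 0 3) := by
    apply hf.1.comp (by fun_prop)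
    intro ζ hζ
    exact e0_mem (by simpa using hζ)
  have hsph : sphere (0 : ℂ) 1 ⊆ ball 0 3 := fun ζ hζ => by
    have : ‖ζ‖ = 1 := by simpa using hζ
    simp [this]
  obtain ⟨e, he, hmax⟩ := (isCompact_sphere (0 : ℂ) 1).exists_isMaxOn ⟨1, by simp⟩ (huc.mono hsph)
  have he1 : ‖e‖ = 1 := by simpa using he
  set B : ℝ := u e with hB
  have hB1 : ∀ ζ : ℂ, ‖ζ‖ = 1 → u ζ ≤ B := fun ζ hζ => hmax (by simpa using hζ)
  have hB2 : ∀ ζ : ℂ, ‖ζ‖ ≤ 1 → u ζ ≤ B := by
    intro ζ hζ
    have h1 : u ζ - B ≤ 0 := by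
      apply maxPrinciple (U := ball (0 : ℂ) 1) (isCompact_closedBall (0 : ℂ) 1) isOpen_ball
        ball_subset_closedBall (g := fun ζ => u ζ - B)
      · exact (huc.mono fun z hz => by
          have : ‖z‖ ≤ 1 := by simpa using hz
          rw [mem_ball, dist_zero_right]; linarith).sub continuousOn_const
      · intro z hz
        have hz1 : ‖z‖ < 1 := by simpa using hz
        have := (hsm z (by linarith)).sub_re (U := ball 0 3)
          (isOpen_ball.mem_nhds (by rw [mem_ball, dist_zero_right]; linarith)) huc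
          (p := fun _ => (B : ℂ)) (by fun_prop)
        simpa using this
      · intro z hz hz2
        have hzn : ‖z‖ = 1 := by
          have h1 : ‖z‖ ≤ 1 := by simpa using hz
          have h2 : ¬ ‖z‖ < 1 := by simpa using hz2
          exact le_antisymm h1 (not_lt.1 h2)
        linarith [hB1 z hzn]
      · simpa using hζ
    linarith
  -- the derivative along the radius
  have hderiv : HasDerivAt (fun t : ℝ => u (t * e)) 0 1 := by
    have hq : e • e0 ∈ Om := e0_mem (by rw [he1]; norm_num)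
    have hL := (hd _ hq).hasFDerivAt
    have h1 : HasDerivAt (fun t : ℝ => ((t : ℂ) * e) • e0) (e • e0) 1 := by
      have h2 : HasDerivAt (fun t : ℝ => t • (e • e0)) ((1 : ℝ) • (e • e0)) 1 :=
        (hasDerivAt_id (1 : ℝ)).smul_const (e • e0)
      rw [one_smul] at h2
      refine h2.congr_of_eventuallyEq (Eventually.of_forall fun t => ?_)
      simp only [mul_smul, Complex.coe_smul]
    have hL' : HasFDerivAt f (fderiv ℝ f (e • e0)) ((((1 : ℝ) : ℂ) * e) • e0) := by
      simpa using hL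
    have h3 := hL'.comp_hasDerivAt (1 : ℝ) h1
    rw [deriv_circle hf hb he1 hL e] at h3
    exact h3
  have key : ∀ r : ℝ, 0 < r → r < 1 → ∃ ζ : ℂ, ‖ζ‖ = r ∧ B ≤ u ζ := by
    intro r hr0 hr1
    have hsr : sphere (0 : ℂ) r ⊆ ball 0 3 := fun ζ hζ => by
      have : ‖ζ‖ = r := by simpa using hζ
      simp [this]; linarith
    obtain ⟨ζ1, hζ1, hmax1⟩ := (isCompact_sphere (0 : ℂ) r).exists_isMaxOn
      ⟨(r : ℂ), by simp [abs_of_pos hr0]⟩ (huc.mono hsr)
    refine ⟨ζ1, by simpa using hζ1, ?_⟩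
    by_contra hcon
    push Not at hcon
    have hlog : Real.log r < 0 := Real.log_neg hr0 hr1
    set κ : ℝ := (B - u ζ1) / (-Real.log r) with hκ
    have hκ0 : 0 < κ := div_pos (by linarith) (by linarith)
    have hκr : B + κ * Real.log r = u ζ1 := by
      have : κ * (-Real.log r) = B - u ζ1 := by
        rw [hκ]; exact div_mul_cancel₀ _ (by linarith)
      linarith
    have hann : ∀ z : ℂ, r ≤ ‖z‖ → ‖z‖ ≤ 1 → u z ≤ B + κ * Real.log ‖z‖ := by
      intro z hz1 hz2
      apply annulus hr0 (R := 1) (g := u) _ _ _ _ hz1 hz2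
      · apply huc.mono
        intro w hw
        rw [mem_ball, dist_zero_right]; linarith [hw.2]
      · intro w _ hw
        exact hsm w (by linarith)
      · intro w hw
        rw [hκr]
        exact hmax1 (by simpa using hw)
      · intro w hw
        rw [Real.log_one, mul_zero, add_zero]
        exact hB1 w hw
    have hφ : HasDerivAt (fun t : ℝ => u (t * e) - κ * Real.log t) (0 - κ * (1 : ℝ)⁻¹) 1 :=
      hderiv.sub ((Real.hasDerivAt_log one_ne_zero).const_mul κ)
    have hslope := (hasDerivAt_iff_tendsto_slope.1 hφ).mono_left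
      (nhdsWithin_mono 1 (show Iio (1 : ℝ) ⊆ {1}ᶜ from fun t ht => ne_of_lt ht))
    have hge : 0 ≤ 0 - κ * (1 : ℝ)⁻¹ := by
      apply ge_of_tendsto hslope
      have hIoo : Ioo r 1 ∈ 𝓝[<] (1 : ℝ) := Ioo_mem_nhdsLT hr1
      filter_upwards [hIoo] with t ht
      have ht0 : 0 < t := hr0.trans ht.1
      have hnt : ‖(t : ℂ) * e‖ = t := by
        rw [norm_mul, Complex.norm_real, Real.norm_of_nonneg ht0.le, he1, mul_one]
      have h1 := hann ((t : ℂ) * e) (by rw [hnt]; exact ht.1.le) (by rw [hnt]; exact ht.2.le)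
      rw [hnt] at h1
      rw [slope_def_field]
      apply div_nonneg_of_nonpos
      · simp only [Complex.ofReal_one, one_mul, Real.log_one, mul_zero, sub_zero]
        linarith
      · linarith [ht.2]
    simp at hge
    linarith
  have hB3 : B ≤ u 0 := by
    by_contra hcon
    push Not at hcon
    have hcont : ContinuousAt u 0 := huc.continuousAt (isOpen_ball.mem_nhds (by simp))
    obtain ⟨d, hd0, hds⟩ := Metric.mem_nhds_iff.1 (hcont.eventually (gt_mem_nhds hcon))
    obtain ⟨ζ, h1, h2⟩ := key (min (d / 2) (1 / 2)) (lt_min (by linarith) (by norm_num))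
      (lt_of_le_of_lt (min_le_right _ _) (by norm_num))
    have h3 : ζ ∈ ball (0 : ℂ) d := by
      rw [mem_ball, dist_zero_right, h1]
      exact lt_of_le_of_lt (min_le_left _ _) (by linarith)
    have h4 : u ζ < B := hds h3
    linarith
  rintro ⟨U, hUo, h0U, hUs, ε, hε, hpsh⟩
  obtain ⟨d, hd0, hds⟩ := Metric.mem_nhds_iff.1 (hUo.mem_nhds h0U)
  set r : ℝ := min (d / 2) (1 / 2) with hr
  have hr0 : 0 < r := lt_min (by linarith) (by norm_num)
  have hr1 : r ≤ 1 / 2 := min_le_right _ _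
  have hrd : r < d := lt_of_le_of_lt (min_le_left _ _) (by linarith)
  have hin : ∀ ζ : ℂ, ‖ζ‖ ≤ 1 → (0 : Cn 3) + ζ • ((r : ℂ) • e0) ∈ U := by
    intro ζ hζ
    apply hds
    rw [mem_ball, dist_zero_right, zero_add, norm_smul, norm_smul, norm_e0, mul_one,
      Complex.norm_real, Real.norm_of_nonneg hr0.le]
    nlinarith [norm_nonneg ζ]
  have h1 := hpsh.2 0 ((r : ℂ) • e0) hin
  have h2 : Real.circleAverage (fun ζ : ℂ => f (0 + ζ • ((r : ℂ) • e0)) -
      ε * ‖(0 : Cn 3) + ζ • ((r : ℂ) • e0)‖ ^ 2) 0 1 ≤ B - ε * r ^ 2 := by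
    apply Real.circleAverage_mono_on_of_le_circle
    · apply ContinuousOn.circleIntegrable zero_le_one
      apply hpsh.1.comp (f := fun ζ : ℂ => (0 : Cn 3) + ζ • ((r : ℂ) • e0)) (by fun_prop)
      intro ζ hζ
      exact hin ζ (by simpa using (mem_sphere_zero_iff_norm.1 hζ).le)
    · intro ζ hζ
      rw [abs_one, mem_sphere_zero_iff_norm] at hζ
      have h3 : ‖(0 : Cn 3) + ζ • ((r : ℂ) • e0)‖ = r := by
        rw [zero_add, norm_smul, norm_smul, norm_e0, mul_one,
          Complex.norm_real, Real.norm_of_nonneg hr0.le, hζ, one_mul]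
      rw [h3, zero_add, smul_smul]
      have h4 : u (ζ * r) ≤ B := hB2 _ (by
        rw [norm_mul, Complex.norm_real, Real.norm_of_nonneg hr0.le, hζ, one_mul]; linarith)
      simp only [hu] at h4
      linarith
  have h5 : u 0 = f 0 := by simp [hu]
  have h6 : 0 < ε * r ^ 2 := by positivity
  simp only [norm_zero] at h1
  have h7 := h1.trans h2
  rw [h5] at hB3
  have h8 : f 0 - ε * (0 : ℝ) ^ 2 = f 0 := by ring
  rw [h8] at h7
  linarith

end Q72.Core
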